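import Pool.Agent.R591.LB.Real

/-!
# Good and reversible `ℵ₁`-dense sets of reals
-/

set_option autoImplicit false

open Set Cardinal

namespace Pool.Agent.R591.GR

/-- `ω₁` -/
abbrev W : Type := (ℵ₁ : Cardinal.{0}).ord.ToType

/-- `A` is `ℵ₁`-dense: for all `a < b` in `A`, exactly `ℵ₁` elements of `A` lie strictly between
`a` and `b`. -/
def AlephOneDense (A : Set ℝ) : Prop :=
  ∀ a ∈ A, ∀ b ∈ A, a < b → #{x : ℝ | x ∈ A ∧ a < x ∧ x < b} = ℵ₁

/-- `A` is reversible: `A` is order isomorphic to `A* = {-r : r ∈ A}`. -/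
def Reversible (A : Set ℝ) : Prop := Nonempty (A ≃o ((fun r : ℝ => -r) '' A : Set ℝ))

/-- `A` is good: it has a bijective enumeration `r` by `ω₁` such that for each `n` and each
sequence `a` of length `ω₁` of `n`-element subsets of `ω₁`, there are `α < β` with
`r (a α i) ≤ r (a β i)` for all `i < n`, where `a α i` is the `i`-th element of `a α` in increasing
order. -/
def Good (A : Set ℝ) : Prop :=
  ∃ r : W ≃ A, ∀ (n : ℕ) (a : W → Finset W) (ha : ∀ α, (a α).card = n),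
    ∃ α β : W, α < β ∧ ∀ i : Fin n,
      r ((a α).orderEmbOfFin (ha α) i) ≤ r ((a β).orderEmbOfFin (ha β) i)

/-- every uncountable family of pairs of distinct elements has two comparable members -/
def PP (I : Type) [LinearOrder I] : Prop :=
  ∀ x y : W → I, (∀ α, x α ≠ y α) → ∃ α β, α ≠ β ∧ x α ≤ x β ∧ y α ≤ y β

theorem PP.of_emb {I J : Type} [LinearOrder I] [LinearOrder J] (f : I → J) (hf : StrictMono f)
    (h : PP J) : PP I := by
  intro x y hne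
  obtain ⟨α, β, h1, h2, h3⟩ := h (fun α => f (x α)) (fun α => f (y α))
    (fun α e => hne α (hf.injective e))
  exact ⟨α, β, h1, hf.le_iff_le.1 h2, hf.le_iff_le.1 h3⟩

theorem W_card : #W = ℵ₁ := by
  simp [W]

theorem inj_of_unc {S : Set W} (hS : ¬ S.Countable) : ∃ j : W → W, Function.Injective j ∧
    ∀ α, j α ∈ S := by
  have h1 : #W ≤ #S := by
    rw [W_card]
    exact LB.al1_le hS
  obtain ⟨f⟩ := h1
  exact ⟨fun α => f α, fun a b h => f.injective (Subtype.ext h), fun α => (f α).2⟩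

theorem good_pairs {A : Set ℝ} (hA : Good A) : PP A := by
  obtain ⟨r, hr⟩ := hA
  -- ordered version
  have key : ∀ u v : W → W, (∀ α, u α < v α) → ∃ α β, α < β ∧ r (u α) ≤ r (u β) ∧
      r (v α) ≤ r (v β) := by
    intro u v huv
    have hc : ∀ α, ({u α, v α} : Finset W).card = 2 := fun α => Finset.card_pair (huv α).ne
    have he : ∀ α, (![u α, v α] : Fin 2 → W) = ({u α, v α} : Finset W).orderEmbOfFin (hc α) := by
      intro α
      apply Finset.orderEmbOfFin_unique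
      · intro i
        fin_cases i <;> simp
      · intro i j hij
        fin_cases i <;> fin_cases j <;> simp_all
    obtain ⟨α, β, h1, h2⟩ := hr 2 (fun α => {u α, v α}) hc
    refine ⟨α, β, h1, ?_, ?_⟩
    · have := h2 0
      rw [← congrFun (he α) 0, ← congrFun (he β) 0] at this
      simpa using this
    · have := h2 1
      rw [← congrFun (he α) 1, ← congrFun (he β) 1] at this
      simpa using this
  intro x y hne
  let S : Set W := {α | r.symm (x α) < r.symm (y α)}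
  by_cases hS : S.Countable
  · have hS' : ¬ Sᶜ.Countable := by
      intro h
      have : (univ : Set W).Countable := by
        rw [← union_compl_self S]
        exact hS.union h
      have h2 := this.le_aleph0
      rw [mk_univ, W_card] at h2
      exact absurd aleph0_lt_aleph_one (not_lt.2 h2)
    obtain ⟨j, hj, hjS⟩ := inj_of_unc hS'
    obtain ⟨α, β, h1, h2, h3⟩ := key (fun α => r.symm (y (j α))) (fun α => r.symm (x (j α)))
      (fun α => lt_of_le_of_ne (not_lt.1 (hjS α)) fun e => hne (j α) (r.symm.injective e).symm)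
    refine ⟨j α, j β, hj.ne h1.ne, ?_, ?_⟩
    · simpa using h3
    · simpa using h2
  · obtain ⟨j, hj, hjS⟩ := inj_of_unc hS
    obtain ⟨α, β, h1, h2, h3⟩ := key (fun α => r.symm (x (j α))) (fun α => r.symm (y (j α)))
      (fun α => hjS α)
    refine ⟨j α, j β, hj.ne h1.ne, ?_, ?_⟩
    · simpa using h2
    · simpa using h3

/-- reduction to sets meeting every interval in `ℵ₁` points -/
theorem exists_dense_pp {B : Set ℝ} (hB : AlephOneDense B) (hg : Good B) :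
    ∃ X : Set ℝ, LB.DenseReals X ∧ PP X := by
  have hPP := good_pairs hg
  have hBc : #B = ℵ₁ := by
    obtain ⟨r, -⟩ := hg
    rw [← W_card]
    exact (Cardinal.mk_congr r).symm
  have hbt : ∀ a ∈ B, ∀ b ∈ B, a < b → ∃ x ∈ B, a < x ∧ x < b := by
    intro a ha b hb hab
    have h1 : #{x : ℝ | x ∈ B ∧ a < x ∧ x < b} ≠ 0 := by
      rw [hB a ha b hb hab]
      exact (Cardinal.aleph_pos 1).ne'
    obtain ⟨c, hc⟩ := Cardinal.mk_ne_zero_iff.1 h1
    exact ⟨c, hc⟩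
  let I : Set ℝ := {x | x ∈ B ∧ (∃ a ∈ B, a < x) ∧ ∃ b ∈ B, x < b}
  have hbI : ∀ a ∈ B, ∀ b ∈ B, a < b → ∃ x ∈ I, a < x ∧ x < b := by
    intro a ha b hb hab
    obtain ⟨x, hx, h1, h2⟩ := hbt a ha b hb hab
    exact ⟨x, ⟨hx, ⟨a, ha, h1⟩, ⟨b, hb, h2⟩⟩, h1, h2⟩
  have i1 : DenselyOrdered I := ⟨fun a b h => by
    obtain ⟨x, hx, h1, h2⟩ := hbI a a.2.1 b b.2.1 h
    exact ⟨⟨x, hx⟩, h1, h2⟩⟩
  have i2 : NoMinOrder I := ⟨fun a => by
    obtain ⟨b, hb, hba⟩ := a.2.2.1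
    obtain ⟨x, hx, h1, h2⟩ := hbI b hb a a.2.1 hba
    exact ⟨⟨x, hx⟩, h2⟩⟩
  have i3 : NoMaxOrder I := ⟨fun a => by
    obtain ⟨b, hb, hba⟩ := a.2.2.2
    obtain ⟨x, hx, h1, h2⟩ := hbI a a.2.1 b hb hba
    exact ⟨⟨x, hx⟩, h1⟩⟩
  have i4 : Nonempty I := by
    have hne : ¬ B.Subsingleton := fun h => LB.al1_unc hBc h.countable
    rw [Set.not_subsingleton_iff] at hne
    obtain ⟨a, ha, b, hb, hab⟩ := hne
    rcases lt_or_gt_of_ne hab with h | h
    · obtain ⟨x, hx, -⟩ := hbI a ha b hb h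
      exact ⟨⟨x, hx⟩⟩
    · obtain ⟨x, hx, -⟩ := hbI b hb a ha h
      exact ⟨⟨x, hx⟩⟩
  classical
  let pick : ℚ × ℚ → I := fun p =>
    if h : ∃ c : I, (p.1 : ℝ) < c ∧ (c : ℝ) < p.2 then h.choose else Classical.arbitrary _
  obtain ⟨Y, hY, ⟨e⟩⟩ := LB.exists_real_iso (I := I) (range pick) (countable_range _) (by
    intro a b hab
    obtain ⟨c, hc1, hc2⟩ := exists_between hab
    obtain ⟨p, hp1, hp2⟩ := exists_rat_btwn (show (a : ℝ) < c from hc1)
    obtain ⟨q, hq1, hq2⟩ := exists_rat_btwn (show (c : ℝ) < b from hc2)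
    have h : ∃ c : I, (p : ℝ) < c ∧ (c : ℝ) < q := ⟨c, hp2, hq1⟩
    refine ⟨pick (p, q), ⟨_, rfl⟩, ?_⟩
    simp only [pick, dif_pos h]
    exact ⟨hp1.trans h.choose_spec.1, h.choose_spec.2.trans hq2⟩) (by
    intro a b hab
    rw [← hB a a.2.1 b b.2.1 hab]
    refine Cardinal.mk_congr ⟨fun x => ⟨x.1, x.1.2.1, x.2.1, x.2.2⟩,
      fun x => ⟨⟨x.1, x.2.1, ⟨a, a.2.1, x.2.2.1⟩, ⟨b, b.2.1, x.2.2.2⟩⟩, x.2.2.1, x.2.2.2⟩,
      fun x => rfl, fun x => rfl⟩)
  refine ⟨Y, hY, ?_⟩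
  refine PP.of_emb (J := B) (fun y => ⟨(e.symm y : I), (e.symm y).2.1⟩) ?_ hPP
  intro x y h
  exact e.symm.strictMono h

/-- the mixed set -/
def Mix (X : Set ℝ) : Set ℝ := {x | (x < 0 ∧ x ∈ X) ∨ (0 < x ∧ (x ∈ X ∨ ∃ c : ℕ, (c : ℝ) - x ∈ X))}

theorem mix_dense {X : Set ℝ} (hX : LB.DenseReals X) {a b : ℝ} (hab : a < b) :
    #{x : ℝ | x ∈ Mix X ∧ a < x ∧ x < b} = ℵ₁ := by
  apply le_antisymm
  · have h1 : {x : ℝ | x ∈ Mix X ∧ a < x ∧ x < b} ⊆
        X ∪ ⋃ c : ℕ, (fun x : ℝ => (c : ℝ) - x) '' X := by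
      rintro x ⟨hx, -⟩
      rcases hx with ⟨-, hx⟩ | ⟨-, hx | ⟨c, hx⟩⟩
      · exact Or.inl hx
      · exact Or.inl hx
      · right
        exact mem_iUnion.2 ⟨c, _, hx, by simp⟩
    refine (mk_le_mk_of_subset h1).trans ((mk_union_le _ _).trans ?_)
    have h2 : #(⋃ c : ℕ, (fun x : ℝ => (c : ℝ) - x) '' X) ≤ ℵ₁ := by
      refine (Cardinal.mk_iUnion_le_sum_mk).trans ?_
      refine (Cardinal.sum_le_sum _ (fun _ => ℵ₁) fun c => ?_).trans ?_
      · rw [← LB.mk_denseReals hX]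
        exact mk_image_le
      · simp
    calc #X + #(⋃ c : ℕ, (fun x : ℝ => (c : ℝ) - x) '' X) ≤ ℵ₁ + ℵ₁ :=
          add_le_add (LB.mk_denseReals hX).le h2
      _ = ℵ₁ := Cardinal.add_eq_self (Cardinal.aleph0_le_aleph 1)
  · rcases le_or_gt b 0 with hb | hb
    · rw [← hX a b hab]
      refine mk_le_mk_of_subset ?_
      rintro x ⟨hx, h1, h2⟩
      exact ⟨Or.inl ⟨h2.trans_le hb, hx⟩, h1, h2⟩
    · rw [← hX (max a 0) b (max_lt hab hb)]
      refine mk_le_mk_of_subset ?_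
      rintro x ⟨hx, h1, h2⟩
      have h3 := max_lt_iff.1 h1
      exact ⟨Or.inr ⟨h3.2, Or.inl hx⟩, h3.1, h2⟩

/-- an injective family of elements of `X` in an interval, avoiding one point -/
theorem exists_family {X : Set ℝ} (hX : LB.DenseReals X) {a b : ℝ} (hab : a < b) (p : ℝ) :
    ∃ x : W → ℝ, Function.Injective x ∧ ∀ α, x α ∈ X ∧ a < x α ∧ x α < b ∧ x α ≠ p := by
  have h1 : ¬ ((X ∩ Ioo a b) \ {p}).Countable := by
    intro h
    have : (X ∩ Ioo a b).Countable := by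
      refine (h.union (countable_singleton p)).mono ?_
      intro x hx
      by_cases hp : x = p
      · exact Or.inr hp
      · exact Or.inl ⟨hx, hp⟩
    exact LB.al1_unc (hX a b hab) this
  have h2 := LB.al1_le h1
  rw [← W_card] at h2
  obtain ⟨f⟩ := h2
  refine ⟨fun α => f α, fun α β h => f.injective (Subtype.ext h), fun α => ?_⟩
  exact ⟨(f α).2.1.1, (f α).2.1.2.1, (f α).2.1.2.2, (f α).2.2⟩

/-- the mixed set is not good -/
theorem mix_not_good {X : Set ℝ} (hX : LB.DenseReals X) : ¬ Good (Mix X) := by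
  intro hg
  have hPP := good_pairs hg
  obtain ⟨x, hinj, hx⟩ := exists_family hX (one_pos (α := ℝ)) (1 / 2)
  have hx1 : ∀ α, x α ∈ Mix X := fun α => Or.inr ⟨(hx α).2.1, Or.inl (hx α).1⟩
  have hx2 : ∀ α, 1 - x α ∈ Mix X := fun α => Or.inr ⟨by linarith [(hx α).2.2.1], Or.inr ⟨1, by
    simpa using (hx α).1⟩⟩
  obtain ⟨α, β, hne, h1, h2⟩ := hPP (fun α => ⟨x α, hx1 α⟩) (fun α => ⟨1 - x α, hx2 α⟩) (by
    intro α h
    have h3 : x α = 1 - x α := congrArg Subtype.val h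
    exact (hx α).2.2.2 (by linarith))
  have h1' : x α ≤ x β := h1
  have h2' : 1 - x α ≤ 1 - x β := h2
  exact hne (hinj (by linarith))

/-- the mixed set is not reversible -/
theorem mix_not_rev {X : Set ℝ} (hX : LB.DenseReals X) (hPP : PP X) : ¬ Reversible (Mix X) := by
  rintro ⟨e⟩
  obtain ⟨a₀, ha₀⟩ : ∃ a₀ : ℝ, a₀ ∈ X ∧ a₀ < 0 := by
    obtain ⟨x, -, hx⟩ := exists_family hX (show (-1 : ℝ) < 0 by norm_num) 0
    obtain ⟨w⟩ : Nonempty W := by
      rw [← Cardinal.mk_ne_zero_iff, W_card]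
      exact (Cardinal.aleph_pos 1).ne'
    exact ⟨x w, (hx w).1, (hx w).2.2.1⟩
  let A₀ : Mix X := ⟨a₀, Or.inl ⟨ha₀.2, ha₀.1⟩⟩
  -- the antitone bijection
  let g : Mix X → Mix X := fun z => e.symm ⟨-(z : ℝ), z, z.2, rfl⟩
  have hg : ∀ z w : Mix X, g z ≤ g w → (w : ℝ) ≤ z := by
    intro z w h
    have h2 := e.symm.le_iff_le.1 h
    have h3 : -(z : ℝ) ≤ -(w : ℝ) := h2
    linarith
  have hinjg : Function.Injective g := fun z w h =>
    Subtype.ext (le_antisymm (hg w z h.symm.le) (hg z w h.le))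
  have hlt : ∀ z : Mix X, -((e A₀ : ((fun r : ℝ => -r) '' Mix X : Set ℝ)) : ℝ) < z → g z < A₀ := by
    intro z hz
    have h3 : (⟨-(z : ℝ), z, z.2, rfl⟩ : ((fun r : ℝ => -r) '' Mix X : Set ℝ)) < e A₀ := by
      change -(z : ℝ) < ((e A₀ : ((fun r : ℝ => -r) '' Mix X : Set ℝ)) : ℝ)
      linarith
    exact (OrderIso.symm_apply_lt e).2 h3
  have hmem : ∀ z : Mix X, -((e A₀ : ((fun r : ℝ => -r) '' Mix X : Set ℝ)) : ℝ) < z →
      (g z : ℝ) ∈ X := by
    intro z hz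
    have h4 : (g z : ℝ) < a₀ := hlt z hz
    rcases (g z).2 with ⟨-, h⟩ | ⟨h, -⟩
    · exact h
    · exact absurd h (by linarith [ha₀.2])
  set M : ℝ := max (-((e A₀ : ((fun r : ℝ => -r) '' Mix X : Set ℝ)) : ℝ)) 0 with hM
  obtain ⟨c, hc⟩ := exists_nat_gt (2 * M)
  obtain ⟨x, hinj, hx⟩ := exists_family hX (show M < c - M by linarith) ((c : ℝ) / 2)
  have hM1 : -((e A₀ : ((fun r : ℝ => -r) '' Mix X : Set ℝ)) : ℝ) ≤ M := le_max_left _ _
  have hM0 : 0 ≤ M := le_max_right _ _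
  have hx1 : ∀ α, x α ∈ Mix X := fun α => Or.inr ⟨hM0.trans_lt (hx α).2.1, Or.inl (hx α).1⟩
  have hx2 : ∀ α, c - x α ∈ Mix X := fun α => Or.inr ⟨by linarith [(hx α).2.2.1], Or.inr ⟨c, by
    simpa using (hx α).1⟩⟩
  have hm1 : ∀ α, (g ⟨x α, hx1 α⟩ : ℝ) ∈ X := fun α => hmem _ (hM1.trans_lt (hx α).2.1)
  have hm2 : ∀ α, (g ⟨c - x α, hx2 α⟩ : ℝ) ∈ X := fun α => hmem _ (hM1.trans_lt (by
    change M < c - x α
    linarith [(hx α).2.2.1]))
  obtain ⟨α, β, hne, h1, h2⟩ := hPP (fun α => ⟨g ⟨x α, hx1 α⟩, hm1 α⟩)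
    (fun α => ⟨g ⟨c - x α, hx2 α⟩, hm2 α⟩) (by
    intro α h
    have h3 : (g ⟨x α, hx1 α⟩ : ℝ) = g ⟨c - x α, hx2 α⟩ := congrArg (fun z : X => (z : ℝ)) h
    have h4 := hinjg (Subtype.ext h3)
    have h5 : x α = c - x α := congrArg Subtype.val h4
    exact (hx α).2.2.2 (by linarith))
  have h1' : x β ≤ x α := hg _ _ h1
  have h2' : c - x β ≤ c - x α := hg _ _ h2
  exact hne (hinj (by linarith))

theorem exists_mixed (h : ∃ B : Set ℝ, AlephOneDense B ∧ Good B) :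
    ∃ A : Set ℝ, AlephOneDense A ∧ ¬ Reversible A ∧ ¬ Good A := by
  obtain ⟨B, hB, hg⟩ := h
  obtain ⟨X, hX, hPP⟩ := exists_dense_pp hB hg
  exact ⟨Mix X, fun a _ b _ hab => mix_dense hX hab, mix_not_rev hX hPP, mix_not_good hX⟩

end Pool.Agent.R591.GR
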